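import Mathlib
import Pool.Agent.H626R2.FieldPres

/-!
# A computable field with a low ordering without computable copy

MP_1308e3_lc, Q1 is answered in the negative: `ℚ(α)`, ordered as a subfield of the real numbers,
for a suitable low noncomputable real number `α`.
-/

set_option autoImplicit false

namespace Pool.Agent.Results.MP_1308e3_lc.NoComputableCopy

/-- A computable field: a field whose domain is a computable subset of `ℕ` and whose addition and
multiplication are (restrictions to the domain of) computable functions. -/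
structure ComputableField where
  /-- the domain -/
  dom : Set ℕ
  dom_computable : ComputablePred fun n => n ∈ dom
  /-- the field structure -/
  [field : Field dom]
  add_computable : ∃ f : ℕ → ℕ → ℕ, Computable₂ f ∧
    ∀ a b : dom, f (a : ℕ) (b : ℕ) = ((a + b : dom) : ℕ)
  mul_computable : ∃ f : ℕ → ℕ → ℕ, Computable₂ f ∧
    ∀ a b : dom, f (a : ℕ) (b : ℕ) = ((a * b : dom) : ℕ)

attribute [instance] ComputableField.field

/-- An ordering of a (computable) field. -/
structure FieldOrdering (F : ComputableField) where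
  /-- the (strict) order relation -/
  lt : F.dom → F.dom → Prop
  irrefl : ∀ a, ¬ lt a a
  trans : ∀ a b c, lt a b → lt b c → lt a c
  total : ∀ a b, lt a b ∨ a = b ∨ lt b a
  add_lt : ∀ a b c, lt a b → lt (a + c) (b + c)
  mul_pos : ∀ a b, lt 0 a → lt 0 b → lt 0 (a * b)

/-- The set `{⟨a, b⟩ : a < b}` of natural numbers coding an ordering. -/
def FieldOrdering.graph {F : ComputableField} (O : FieldOrdering F) : Set ℕ :=
  {k | ∃ a b : F.dom, k = Nat.pair (a : ℕ) (b : ℕ) ∧ O.lt a b}

/-- The characteristic function of a set, used as an oracle. -/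
noncomputable def chi (X : Set ℕ) : ℕ →. ℕ := by
  classical exact fun n => Part.some (if n ∈ X then 1 else 0)

/-- The halting problem `∅'`. -/
def haltingSet : Set ℕ :=
  {e | (Nat.Partrec.Code.eval (Denumerable.ofNat Nat.Partrec.Code e) e).Dom}

/-- `X` is low, i.e. `X' ≤_T ∅'`: every set which is computably enumerable in `X` (that is, the
domain of a partial function computable in `X`) is Turing reducible to the halting problem `∅'`.
(The jump `X'` is a complete set among the sets computably enumerable in `X`.) -/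
def Low (X : Set ℕ) : Prop :=
  ∀ f : ℕ →. ℕ, TuringReducible f (chi X) →
    TuringReducible (chi {n | (f n).Dom}) (chi haltingSet)

/-- `(F, O)` has a computable copy: an isomorphic ordered field with computable domain, computable
field operations and computable ordering. -/
def HasComputableCopy (F : ComputableField) (O : FieldOrdering F) : Prop :=
  ∃ (K : ComputableField) (P : FieldOrdering K), (ComputablePred fun n => n ∈ P.graph) ∧
    ∃ φ : F.dom ≃+* K.dom, ∀ a b, O.lt a b ↔ P.lt (φ a) (φ b)

/-! ### Proof -/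

open Pool.Agent.H626R2.Low Pool.Agent.H626R2.LowReal Pool.Agent.H626R2.PolyReal
  Pool.Agent.H626R2.FieldPres
open Pool.Agent.Helper67.BN (ci_comp ci_pair ci_comp₂ ci_compC ci_fst
  ci_snd ci_nat_rec computable_of_ci cand cor cnot cpair ind cind
  ceqN clt cle cadd csub cmul cconst ccond clen cunl cunr)

theorem chi_eq (X : Set ℕ) : chi X = Pool.Agent.H626R2.FieldPres.chi X := rfl

theorem haltingSet_eq : haltingSet = HP := rfl

/-- multiples in a presentation -/
def mlt (add : ℕ → ℕ → ℕ) (z g : ℕ) (n : ℕ) : ℕ :=
  Nat.rec (motive := fun _ => ℕ) z (fun _ r => add r g) n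

theorem cmlt {add : ℕ → ℕ → ℕ} (hm : Computable₂ add) (z g : ℕ) :
    ComputableIn ∅ (mlt add z g) := by
  have h1 : ComputableIn ∅ fun p : ℕ × (ℕ × ℕ) => add p.2.2 g :=
    ci_comp₂ hm (ci_comp (f := fun q : ℕ × ℕ => q.2) ci_snd ci_snd) (cconst g)
  exact ci_nat_rec (f := fun n : ℕ => n) (g := fun _ => z)
    (h := fun (_ : ℕ) (p : ℕ × ℕ) => add p.2 g) ComputableIn.id (cconst z) h1

theorem mlt_eq (K : ComputableField) {add : ℕ → ℕ → ℕ}
    (h : ∀ a b : K.dom, add (a : ℕ) (b : ℕ) = ((a + b : K.dom) : ℕ)) (g : K.dom) (n : ℕ) :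
    mlt add ((0 : K.dom) : ℕ) (g : ℕ) n = ((n • g : K.dom) : ℕ) := by
  induction n with
  | zero =>
    rw [zero_smul]
    rfl
  | succ n ih =>
    have h1 : mlt add ((0 : K.dom) : ℕ) (g : ℕ) (n + 1) =
      add (mlt add ((0 : K.dom) : ℕ) (g : ℕ) n) g := rfl
    rw [h1, ih, h, succ_nsmul]

theorem result : ∃ (F : ComputableField) (O : FieldOrdering F),
    Low O.graph ∧ ¬ HasComputableCopy F O := by
  classical
  obtain ⟨L, hL, e, u, hu, hu2, hadd, hmul⟩ := exists_frac_presentation' (nuM al) addM mulM negM
    [] [(1, 0)] (nuM_add al) (nuM_mul al) (nuM_neg al) (nuM_nil al) (nuM_one al)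
    prim_addM.to_comp prim_mulM.to_comp prim_negM.to_comp zt prim_zt.to_comp zt_al
  -- the computable field
  let E : (Set.univ : Set ℕ) ≃ L := (Equiv.Set.univ ℕ).trans e
  let fld : Field (Set.univ : Set ℕ) := E.field
  have E_add : ∀ a b : (Set.univ : Set ℕ), E (a + b) = E a + E b := fun a b =>
    (E.ringEquiv).map_add a b
  have E_mul : ∀ a b : (Set.univ : Set ℕ), E (a * b) = E a * E b := fun a b =>
    (E.ringEquiv).map_mul a b
  have E_zero : E 0 = 0 := (E.ringEquiv).map_zero
  have E_val : ∀ a : (Set.univ : Set ℕ), E a = e (a : ℕ) := fun a => rfl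
  let F : ComputableField :=
    { dom := Set.univ
      dom_computable := ⟨fun _ => isTrue trivial, by
        simpa using (Computable.const true : Computable fun _ : ℕ => true)⟩
      field := fld
      add_computable := ⟨fun a b => e.symm (e a + e b), hadd, fun a b => by
        rw [Equiv.symm_apply_eq]
        exact (E_add a b).symm⟩
      mul_computable := ⟨fun a b => e.symm (e a * e b), hmul, fun a b => by
        rw [Equiv.symm_apply_eq]
        exact (E_mul a b).symm⟩ }
  let O : FieldOrdering F :=
    { lt := fun a b => (E a : ℝ) < E b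
      irrefl := fun a => lt_irrefl _
      trans := fun a b c h1 h2 => lt_trans h1 h2
      total := fun a b => by
        rcases lt_trichotomy (E a : ℝ) (E b) with h | h | h
        · exact Or.inl h
        · exact Or.inr (Or.inl (E.injective (Subtype.ext h)))
        · exact Or.inr (Or.inr h)
      add_lt := fun a b c h => by
        show (E (a + c) : ℝ) < E (b + c)
        rw [E_add, E_add]
        push_cast
        linarith
      mul_pos := fun a b h1 h2 => by
        have h1' : (E 0 : ℝ) < E a := h1
        have h2' : (E 0 : ℝ) < E b := h2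
        show (E 0 : ℝ) < E (a * b)
        rw [E_zero] at h1' h2' ⊢
        rw [E_mul]
        push_cast at h1' h2' ⊢
        exact mul_pos h1' h2' }
  refine ⟨F, O, ?_, ?_⟩
  · -- lowness
    intro f hf
    have hgr : ∀ k, k ∈ O.graph ↔ (e (Nat.unpair k).1 : ℝ) < e (Nat.unpair k).2 := by
      intro k
      constructor
      · rintro ⟨a, b, rfl, h⟩
        rw [Nat.unpair_pair]
        exact h
      · intro h
        exact ⟨⟨(Nat.unpair k).1, trivial⟩, ⟨(Nat.unpair k).2, trivial⟩, (Nat.pair_unpair k).symm, h⟩
    have hO : chi O.graph = fun k => Part.some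
        (if (e (Nat.unpair k).1 : ℝ) < e (Nat.unpair k).2 then 1 else 0) := by
      funext k
      unfold chi
      congr 1
      by_cases h : k ∈ O.graph
      · rw [if_pos h, if_pos ((hgr k).1 h)]
      · rw [if_neg h, if_neg (fun h2 => h ((hgr k).2 h2))]
    rw [hO] at hf
    obtain ⟨g, hg, h⟩ := low (Dd u) (cDd hu) (fun σ τ k v hst hv => Dd_mono σ τ k v hst hv)
      (fun k => if (e (Nat.unpair k).1 : ℝ) < e (Nat.unpair k).2 then 1 else 0)
      (fun k => Dd_total hu2 k) f (RecursiveIn.iff_nat.1 hf)
    exact limit_le hg h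
  · -- no computable copy
    rintro ⟨K, P, hP, φ, hφ⟩
    obtain ⟨hdec, hP⟩ := hP
    obtain ⟨add, hcadd, hadd2⟩ := K.add_computable
    -- the element `al`
    let tL : L := ⟨nuM al [(1, 1)], hL _⟩
    have htL : (tL : ℝ) = al := by
      show nuM al [(1, 1)] = al
      simp [nuM]
    obtain ⟨t, ht⟩ : ∃ t : F.dom, E t = tL := ⟨E.symm tL, E.apply_symm_apply _⟩
    have hmulE : ∀ (n : ℕ) (x : F.dom), (E (n • x) : ℝ) = n * (E x : ℝ) := by
      intro n x
      induction n with
      | zero =>
        rw [zero_smul, E_zero]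
        simp
      | succ n ih =>
        rw [succ_nsmul, E_add]
        push_cast
        rw [ih]
        ring
    have hE1 : (E (1 : F.dom) : ℝ) = 1 := by
      have : E (1 : F.dom) = 1 := (E.ringEquiv).map_one
      rw [this]
      rfl
    refine no_comparison (le := fun p q => !(@decide _ (hdec (Nat.pair
      (mlt add ((0 : K.dom) : ℕ) (φ t : ℕ) q) (mlt add ((0 : K.dom) : ℕ) (φ 1 : ℕ) p))))) ?_ ?_
    · apply computable_of_ci (f := fun p : ℕ × ℕ => !(@decide _ (hdec (Nat.pair
        (mlt add ((0 : K.dom) : ℕ) (φ t : ℕ) p.2) (mlt add ((0 : K.dom) : ℕ) (φ 1 : ℕ) p.1)))))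
      exact cnot (ci_compC hP (cpair (ci_comp (cmlt hcadd _ _) ci_snd)
        (ci_comp (cmlt hcadd _ _) ci_fst)))
    · intro p q
      have h1 : (Nat.pair (mlt add ((0 : K.dom) : ℕ) (φ t : ℕ) q)
          (mlt add ((0 : K.dom) : ℕ) (φ 1 : ℕ) p) ∈ P.graph) ↔ (q : ℝ) * al < p := by
        rw [mlt_eq K hadd2, mlt_eq K hadd2, ← map_nsmul, ← map_nsmul]
        constructor
        · rintro ⟨a, b, h2, h3⟩
          have h4 := Nat.pair_eq_pair.1 h2
          have h5 : φ (q • t) = a := Subtype.ext h4.1
          have h6 : φ (p • 1) = b := Subtype.ext h4.2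
          rw [← h5, ← h6, ← hφ] at h3
          have h7 : (E (q • t) : ℝ) < E (p • (1 : F.dom)) := h3
          rw [hmulE, hmulE, ht, htL, hE1, mul_one] at h7
          exact h7
        · intro h
          refine ⟨φ (q • t), φ (p • 1), rfl, (hφ _ _).1 ?_⟩
          show (E (q • t) : ℝ) < E (p • (1 : F.dom))
          rw [hmulE, hmulE, ht, htL, hE1, mul_one]
          exact h
      rw [Bool.not_eq_true', decide_eq_false_iff_not]
      exact (not_congr h1).trans not_lt

end Pool.Agent.Results.MP_1308e3_lc.NoComputableCopy
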